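import Pool.Agent.helper32.EX.SpecA

/-!
# Project ex, row DM4: the highest root
-/

set_option autoImplicit false
set_option linter.unusedVariables false
set_option linter.unusedSectionVars false

namespace Pool.Agent.EX

noncomputable section

section

variable {n : ℕ} {C : Matrix (Fin n) (Fin n) ℤ} [hC : Fact (Dyn C)]

theorem DM4_not_both (α : Rt C) (h1 : Pos α) (h2 : Pos (-α)) : False := by
  refine ne_zero_of_rt α (funext fun i => ?_)
  have h3 := h1 i
  have h4 := h2 i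
  simp only [neg_val, Pi.neg_apply] at h4
  show α.1 i = 0
  omega

theorem DM4_pos_sm (i : Fin n) : Pos (sm C i) := by
  intro j
  show 0 ≤ (Pi.single i 1 : Fin n → ℤ) j
  by_cases h : j = i
  · subst h; simp
  · simp [h]

theorem DM4_one (hDM3 : DM3_stmt) (θ : Rt C) (hθ : Dom θ) (β : Rt C) (hβ : Pos β) (hne : β ≠ θ) :
    ∃ i, Q C β.1 (sm C i).1 = -1 := by
  have h1 : ¬ Dom β := fun h => hne (hDM3 C θ β hθ h)
  unfold Dom at h1
  push Not at h1
  obtain ⟨i, hi⟩ := h1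
  refine ⟨i, ?_⟩
  have h2 := bd β (sm C i)
  have h3 : Q C β.1 (sm C i).1 ≠ -2 := by
    intro h
    have h4 := Q_eq_neg_two h
    have h5 := DM4_pos_sm (C := C) i
    rw [h4] at h5
    exact DM4_not_both β hβ h5
  omega

theorem DM4_dom_pos (hSGN : SGN_stmt) (θ : Rt C) (hθ : Dom θ) : Pos θ := by
  rcases hSGN C θ with h | h
  · exact h
  · exfalso
    have h1 : Q C θ.1 θ.1 ≤ 0 := by
      rw [Q_expand θ.1 θ.1]
      refine Finset.sum_nonpos fun i _ => ?_
      have h2 := h i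
      simp only [neg_val, Pi.neg_apply] at h2
      exact mul_nonpos_of_nonpos_of_nonneg (by omega) (hθ i)
    rw [θ.2] at h1
    norm_num at h1

theorem DM4_ht_pos (β : Rt C) (hβ : Pos β) : 0 < ht β := by
  unfold ht
  have h1 : 0 ≤ ∑ i, β.1 i := Finset.sum_nonneg fun i _ => hβ i
  rcases h1.lt_or_eq with h2 | h2
  · exact h2
  · exfalso
    rw [eq_comm, Finset.sum_eq_zero_iff_of_nonneg fun i _ => hβ i] at h2
    exact ne_zero_of_rt β (funext fun i => h2 i (Finset.mem_univ i))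

end

theorem DM4 (hSGN : SGN_stmt) (hSIM : SIM_stmt) (hDM1 : DM1_stmt) (hDM3 : DM3_stmt) : DM4_stmt := by
  intro n C hC θ hθ
  refine ⟨fun β hβ hne => DM4_one hDM3 θ hθ β hβ hne, fun β hne => ?_⟩
  by_cases hpos : Pos β
  · by_contra hcon
    push Not at hcon
    obtain ⟨γ, ⟨hγ1, hγ2, hγ3⟩, hmax⟩ := Set.exists_max_image {γ : Rt C | Pos γ ∧ γ ≠ θ ∧ ht θ ≤ ht γ} ht (Set.toFinite _)
      ⟨β, hpos, hne, hcon⟩
    obtain ⟨i, hi⟩ := DM4_one hDM3 θ hθ γ hγ1 hγ2
    have hr : Q C (γ.1 + (sm C i).1) (γ.1 + (sm C i).1) = 2 := by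
      rw [Q_add_left, Q_add_right, Q_add_right, Q_comm (sm C i).1 γ.1, γ.2, (sm C i).2, hi]
      norm_num
    set δ : Rt C := ⟨γ.1 + (sm C i).1, hr⟩ with hδ
    have hδp : Pos δ := fun j => add_nonneg (hγ1 j) (DM4_pos_sm i j)
    have hδh : ht δ = ht γ + 1 := by
      show ∑ j, (γ.1 j + (sm C i).1 j) = (∑ j, γ.1 j) + 1
      rw [Finset.sum_add_distrib]
      congr 1
      show ∑ j, (Pi.single i 1 : Fin n → ℤ) j = 1
      simp
    by_cases hδθ : δ = θ
    · rw [← hδθ, hδh] at hγ3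
      omega
    · have h1 := hmax δ ⟨hδp, hδθ, by rw [hδh]; omega⟩
      rw [hδh] at h1
      omega
  · have h1 : Pos (-β) := (hSGN C β).resolve_left hpos
    have h2 := DM4_ht_pos (-β) h1
    have h3 : ht (-β) = -ht β := by
      unfold ht
      rw [← Finset.sum_neg_distrib]
      rfl
    have h4 := DM4_ht_pos θ (DM4_dom_pos hSGN θ hθ)
    omega

end

end Pool.Agent.EX
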