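import Pool.Agent.helper32.EX.SpecD

/-!
# Project ex, row SIA: the class of root subgroups is invariant under automorphisms
-/

set_option autoImplicit false
set_option linter.unusedVariables false
set_option linter.unusedSectionVars false

namespace Pool.Agent.EX

noncomputable section

theorem SIA (hSIG : SIG_stmt) (hXRM : XRM_stmt) : SIA_stmt := by
  intro n C hC F _ _ θ hθ x A hA
  obtain ⟨h, hA⟩ := hA
  obtain ⟨x1, x2, x3, -⟩ := hXRM C F
  obtain ⟨g, hg⟩ := hSIG C F θ hθ x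
  choose f hf using hg
  have hinj : Function.Injective f := by
    intro s t hst
    have h1 : x (xg θ s) = x (xg θ t) := by rw [hf, hf, hst]
    have h2 := x.injective h1
    exact xl_inj θ (congrArg Subtype.val h2)
  have hsurj : Function.Surjective f := Finite.surjective_of_injective hinj
  refine ⟨x h * g, ?_⟩
  rw [← x3, hA]
  ext s
  rw [x2, Subgroup.mem_map]
  constructor
  · rintro ⟨a, ha, rfl⟩
    rw [x2] at ha
    obtain ⟨b, hb, rfl⟩ := ha
    rw [x1] at hb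
    obtain ⟨t, rfl⟩ := hb
    refine ⟨g * xg θ (f t) * g⁻¹, (x2 _ _ _).2 ⟨xg θ (f t), (x1 _ _).2 ⟨_, rfl⟩, rfl⟩, ?_⟩
    show x (h * xg θ t * h⁻¹) = x h * (g * xg θ (f t) * g⁻¹) * (x h)⁻¹
    rw [map_mul, map_mul, map_inv, hf]
  · rintro ⟨a, ha, rfl⟩
    rw [x2] at ha
    obtain ⟨b, hb, rfl⟩ := ha
    rw [x1] at hb
    obtain ⟨t', rfl⟩ := hb
    obtain ⟨t, rfl⟩ := hsurj t'
    refine ⟨h * xg θ t * h⁻¹, (x2 _ _ _).2 ⟨xg θ t, (x1 _ _).2 ⟨_, rfl⟩, rfl⟩, ?_⟩
    show x (h * xg θ t * h⁻¹) = x h * (g * xg θ (f t) * g⁻¹) * (x h)⁻¹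
    rw [map_mul, map_mul, map_inv, hf]

end

end Pool.Agent.EX
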