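import Pool.Agent.helper32.EX.SpecA

/-!
# Project ex, row WLN: an element of the Weyl group which preserves positivity is trivial
-/

set_option autoImplicit false
set_option linter.unusedVariables false
set_option linter.unusedSectionVars false

namespace Pool.Agent.EX

noncomputable section

section

variable {n : ℕ} (C : Matrix (Fin n) (Fin n) ℤ) [hC : Fact (Dyn C)]

/-- the product of a list of simple reflections -/
def WLN_p (l : List (Fin n)) : Equiv.Perm (Rt C) := (l.map fun i => rfe (sm C i)).prod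

theorem WLN_p_nil : WLN_p C [] = 1 := rfl

theorem WLN_p_cons (i : Fin n) (l : List (Fin n)) : WLN_p C (i :: l) = rfe (sm C i) * WLN_p C l := by
  simp [WLN_p]

theorem WLN_p_append (l l' : List (Fin n)) : WLN_p C (l ++ l') = WLN_p C l * WLN_p C l' := by
  simp [WLN_p]

theorem WLN_p_mem (l : List (Fin n)) : WLN_p C l ∈ W C := by
  induction l with
  | nil => exact one_mem _
  | cons i l ih =>
    rw [WLN_p_cons]
    exact mul_mem (Subgroup.subset_closure ⟨i, rfl⟩) ih

theorem WLN_sq (α : Rt C) : rfe α * rfe α = 1 := Equiv.ext fun β => rf_rf α β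

theorem WLN_inv (α : Rt C) : (rfe α)⁻¹ = rfe α := inv_eq_of_mul_eq_one_left (WLN_sq C α)

theorem WLN_exists (w : Equiv.Perm (Rt C)) (hw : w ∈ W C) : ∃ l, w = WLN_p C l := by
  refine Subgroup.closure_induction (p := fun w _ => ∃ l, w = WLN_p C l) ?_ ⟨[], rfl⟩ ?_ ?_ hw
  · rintro _ ⟨i, rfl⟩
    exact ⟨[i], by simp [WLN_p]⟩
  · rintro x y _ _ ⟨l, rfl⟩ ⟨l', rfl⟩
    exact ⟨l ++ l', (WLN_p_append C l l').symm⟩
  · rintro x _ ⟨l, rfl⟩
    refine ⟨l.reverse, ?_⟩
    induction l with
    | nil => simp [WLN_p]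
    | cons i l ih =>
      rw [WLN_p_cons, mul_inv_rev, ih (WLN_p_mem C l), WLN_inv, List.reverse_cons, WLN_p_append, WLN_p_cons, WLN_p_nil, mul_one]

theorem WLN_conj (hWPR : WPR_stmt) (l : List (Fin n)) (α β : Rt C) :
    WLN_p C l (rf α β) = rf (WLN_p C l α) (WLN_p C l β) := by
  induction l with
  | nil => rfl
  | cons j l ih =>
    rw [WLN_p_cons, Equiv.Perm.mul_apply, Equiv.Perm.mul_apply, Equiv.Perm.mul_apply, ih]
    set A := WLN_p C l α
    set B := WLN_p C l β
    have hQ : Q C (rf (sm C j) A).1 (rf (sm C j) B).1 = Q C A.1 B.1 :=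
      (hWPR C (rfe (sm C j)) (Subgroup.subset_closure ⟨j, rfl⟩)).1 A B
    apply Subtype.ext
    show (B.1 - Q C A.1 B.1 • A.1) - Q C (sm C j).1 (B.1 - Q C A.1 B.1 • A.1) • (sm C j).1 =
      (B.1 - Q C (sm C j).1 B.1 • (sm C j).1) - Q C (rf (sm C j) A).1 (rf (sm C j) B).1 • (A.1 - Q C (sm C j).1 A.1 • (sm C j).1)
    rw [hQ, Q_sub_right, Q_smul_right]
    funext i
    simp only [Pi.sub_apply, Pi.smul_apply, smul_eq_mul]
    ring

theorem WLN_pos_sm (i : Fin n) : Pos (sm C i) := by
  intro j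
  show 0 ≤ (Pi.single i 1 : Fin n → ℤ) j
  by_cases h : j = i
  · subst h; simp
  · simp [h]

theorem WLN_not_both (α : Rt C) (h1 : Pos α) (h2 : Pos (-α)) : False := by
  refine ne_zero_of_rt α (funext fun i => ?_)
  have h3 := h1 i
  have h4 := h2 i
  simp only [neg_val, Pi.neg_apply] at h4
  show α.1 i = 0
  omega

theorem WLN_exch (hSGN : SGN_stmt) (hSIM : SIM_stmt) (l : List (Fin n)) (γ : Rt C) (h1 : Pos γ) (h2 : Pos (-(WLN_p C l γ))) :
    ∃ a b j, l = a ++ j :: b ∧ WLN_p C b γ = sm C j := by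
  induction l with
  | nil =>
    rw [WLN_p_nil, Equiv.Perm.one_apply] at h2
    exact (WLN_not_both C γ h1 h2).elim
  | cons j l ih =>
    rcases hSGN C (WLN_p C l γ) with h | h
    · by_cases he : WLN_p C l γ = sm C j
      · exact ⟨[], l, j, rfl, he⟩
      · have h3 := hSIM C _ j h he
        rw [WLN_p_cons, Equiv.Perm.mul_apply, rfe_apply] at h2
        exact (WLN_not_both C _ h3 h2).elim
    · obtain ⟨a, b, k, hl, hk⟩ := ih h
      exact ⟨j :: a, b, k, by rw [hl, List.cons_append], hk⟩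

theorem WLN_key (hSGN : SGN_stmt) (hSIM : SIM_stmt) (hWPR : WPR_stmt) : ∀ (k : ℕ) (l : List (Fin n)), l.length = k →
    (∀ α : Rt C, Pos α → Pos (WLN_p C l α)) → WLN_p C l = 1 := by
  intro k
  induction k using Nat.strong_induction_on with
  | _ k ih =>
    intro l hl hpos
    rcases List.eq_nil_or_concat l with rfl | ⟨l', i, rfl⟩
    · rfl
    · have h1 := hpos (sm C i) (WLN_pos_sm C i)
      have hself : rf (sm C i) (sm C i) = -sm C i := by
        apply Subtype.ext
        show (sm C i).1 - Q C (sm C i).1 (sm C i).1 • (sm C i).1 = -(sm C i).1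
        rw [(sm C i).2]
        funext j
        simp only [Pi.sub_apply, Pi.smul_apply, smul_eq_mul, Pi.neg_apply]
        ring
      have h2 : WLN_p C (l' ++ [i]) (sm C i) = -(WLN_p C l' (sm C i)) := by
        rw [WLN_p_append, Equiv.Perm.mul_apply, WLN_p_cons, WLN_p_nil, mul_one, rfe_apply, hself]
        exact (hWPR C _ (WLN_p_mem C l')).2.1 _
      rw [List.concat_eq_append] at *
      rw [h2] at h1
      obtain ⟨a, b, j, hab, hb⟩ := WLN_exch C hSGN hSIM l' (sm C i) (WLN_pos_sm C i) h1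
      have h3 : rfe (sm C j) * WLN_p C b * rfe (sm C i) = WLN_p C b := by
        refine Equiv.ext fun β => ?_
        rw [Equiv.Perm.mul_apply, Equiv.Perm.mul_apply, rfe_apply, rfe_apply, ← hb, ← WLN_conj C hWPR b, rf_rf]
      have h4 : WLN_p C (l' ++ [i]) = WLN_p C (a ++ b) := by
        have h5 : WLN_p C (l' ++ [i]) = WLN_p C a * (rfe (sm C j) * WLN_p C b * rfe (sm C i)) := by
          rw [hab, WLN_p_append, WLN_p_append, WLN_p_cons, WLN_p_cons, WLN_p_nil, mul_one, mul_assoc]
        rw [h5, h3, WLN_p_append]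
      have hlen : (a ++ b).length < k := by
        rw [← hl, hab]
        simp only [List.length_append, List.length_cons, List.length_nil]
        omega
      rw [h4]
      refine ih _ hlen (a ++ b) rfl fun α hα => ?_
      rw [← h4]
      exact hpos α hα

end

theorem WLN (hSGN : SGN_stmt) (hSIM : SIM_stmt) (hWPR : WPR_stmt) : WLN_stmt := by
  intro n C hC w hw hpos
  obtain ⟨l, rfl⟩ := WLN_exists C w hw
  exact WLN_key C hSGN hSIM hWPR _ l rfl hpos

end

end Pool.Agent.EX
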