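import Pool.Agent.helper34.EX.WLN

/-!
# Project ex, row WRF: all reflections are in the Weyl group
-/

set_option autoImplicit false
set_option linter.unusedVariables false
set_option linter.unusedSectionVars false

namespace Pool.Agent.EX

noncomputable section

theorem WRF (hDM1 : DM1_stmt) (hWTR : WTR_stmt) (hWPR : WPR_stmt) : WRF_stmt := by
  intro n C hC β
  obtain ⟨θ, hθ⟩ := hDM1 C
  obtain ⟨w, hw, hwβ⟩ := hWTR C θ hθ β
  obtain ⟨w', hw', hwi⟩ := hWTR C θ hθ (sm C ⟨0, hC.out.ne⟩)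
  have hu : w⁻¹ * w' ∈ W C := mul_mem (inv_mem hw) hw'
  obtain ⟨l, hl⟩ := WLN_exists C _ hu
  have h1 : (w⁻¹ * w') (sm C ⟨0, hC.out.ne⟩) = β := by
    rw [Equiv.Perm.mul_apply, hwi, ← hwβ, ← Equiv.Perm.mul_apply, inv_mul_cancel, Equiv.Perm.one_apply]
  rw [hl] at h1
  have h2 : rfe β = WLN_p C l * rfe (sm C ⟨0, hC.out.ne⟩) * (WLN_p C l)⁻¹ := by
    rw [eq_mul_inv_iff_mul_eq]
    refine Equiv.ext fun γ => ?_
    rw [Equiv.Perm.mul_apply, Equiv.Perm.mul_apply, rfe_apply, rfe_apply, WLN_conj C hWPR l, h1]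
  rw [h2]
  exact mul_mem (mul_mem (WLN_p_mem C l) (Subgroup.subset_closure ⟨_, rfl⟩)) (inv_mem (WLN_p_mem C l))

end

end Pool.Agent.EX
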